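/-
helper50. MFM: module DEX (derivations extend to the field of fractions).
-/
import Pool.Agent.H51.MFM.S

set_option autoImplicit false

open Module

namespace Pool.MFM

theorem t_dex : DEXStmt := by
  intro B K _ _ _ _ _ _ _ hinj hfr
  have hloc : IsLocalization (nonZeroDivisors B) K := by
    refine (isLocalization_iff _ _).2 ⟨?_, ?_, ?_⟩
    · intro y
      rw [isUnit_iff_ne_zero]
      intro h
      exact nonZeroDivisors.ne_zero y.2 (hinj (by rw [h, map_zero]))
    · intro z
      obtain ⟨a, b, hb, h⟩ := hfr z
      exact ⟨(a, ⟨b, mem_nonZeroDivisors_of_ne_zero hb⟩), h⟩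
    · intro x y h
      exact ⟨1, by rw [hinj h]⟩
  constructor
  · intro D
    -- the ring homomorphism to the dual numbers
    let f : B →+* TrivSqZeroExt K K :=
      { toFun := fun b => (algebraMap B K b, algebraMap B K (D b))
        map_one' := by
          refine TrivSqZeroExt.ext ?_ ?_
          · change algebraMap B K 1 = 1
            rw [map_one]
          · change algebraMap B K (D 1) = 0
            rw [Derivation.map_one_eq_zero, map_zero]
        map_mul' := by
          intro x y
          refine TrivSqZeroExt.ext ?_ ?_
          · change algebraMap B K (x * y) = algebraMap B K x * algebraMap B K y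
            rw [map_mul]
          · change algebraMap B K (D (x * y)) = algebraMap B K x • algebraMap B K (D y) +
              MulOpposite.op (algebraMap B K y) • algebraMap B K (D x)
            rw [Derivation.leibniz]
            simp only [smul_eq_mul, map_add, map_mul, MulOpposite.smul_eq_mul_unop,
              MulOpposite.unop_op]
            ring
        map_zero' := by
          refine TrivSqZeroExt.ext ?_ ?_
          · change algebraMap B K 0 = 0
            rw [map_zero]
          · change algebraMap B K (D 0) = 0
            rw [map_zero, map_zero]
        map_add' := by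
          intro x y
          refine TrivSqZeroExt.ext ?_ ?_
          · change algebraMap B K (x + y) = algebraMap B K x + algebraMap B K y
            rw [map_add]
          · change algebraMap B K (D (x + y)) = algebraMap B K (D x) + algebraMap B K (D y)
            rw [map_add, map_add] }
    have hunit : ∀ y : nonZeroDivisors B, IsUnit (f y) := by
      intro y
      rw [TrivSqZeroExt.isUnit_iff_isUnit_fst]
      change IsUnit (algebraMap B K y)
      rw [isUnit_iff_ne_zero]
      intro h
      exact nonZeroDivisors.ne_zero y.2 (hinj (by rw [h, map_zero]))
    let φ : K →+* TrivSqZeroExt K K := IsLocalization.lift hunit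
    have hφ : ∀ b, φ (algebraMap B K b) = f b := fun b => IsLocalization.lift_eq hunit b
    have hfst : ∀ x, (φ x).fst = x := by
      intro x
      have h1 : (TrivSqZeroExt.fstHom K K K).toRingHom.comp φ = RingHom.id K := by
        refine IsLocalization.ringHom_ext (nonZeroDivisors B) ?_
        ext b
        change (φ (algebraMap B K b)).fst = algebraMap B K b
        rw [hφ]
        rfl
      exact congrArg (fun g : K →+* K => g x) h1
    have hsndB : ∀ b, (φ (algebraMap B K b)).snd = algebraMap B K (D b) := by
      intro b
      rw [hφ]
      rfl
    have hleib : ∀ x y, (φ (x * y)).snd = x • (φ y).snd + y • (φ x).snd := by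
      intro x y
      rw [map_mul, TrivSqZeroExt.snd_mul, hfst, hfst]
      simp only [MulOpposite.smul_eq_mul_unop, MulOpposite.unop_op, smul_eq_mul]
      ring
    have hC : ∀ c : ℂ, (φ (algebraMap ℂ K c)).snd = 0 := by
      intro c
      rw [IsScalarTower.algebraMap_apply ℂ B K, hsndB, Derivation.map_algebraMap, map_zero]
    refine ⟨Derivation.mk'
      { toFun := fun x => (φ x).snd
        map_add' := fun x y => by rw [map_add, TrivSqZeroExt.snd_add]
        map_smul' := fun c x => by
          rw [Algebra.smul_def, hleib, hC, smul_zero, add_zero, smul_eq_mul, RingHom.id_apply,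
            Algebra.smul_def] } (fun x y => hleib x y), fun b => hsndB b⟩
  · intro D' h
    ext x
    obtain ⟨a, b, hb, hx⟩ := hfr x
    have h1 := congrArg D' hx
    rw [Derivation.leibniz, h, h, smul_zero, zero_add, smul_eq_mul] at h1
    have h2 : algebraMap B K b ≠ 0 := fun h0 => hb (hinj (by rw [h0, map_zero]))
    rw [Derivation.zero_apply]
    exact (mul_eq_zero.1 h1).resolve_left h2

end Pool.MFM
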