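/-
helper50. MFM: module DIV (divisibility by the power of `Δ`).
-/
import Pool.Agent.H51.MFM.S

set_option autoImplicit false

open Module MvPolynomial

namespace Pool.MFM

theorem dvd_of_prime_pow {R : Type} [CommRing R] [IsDomain R] [UniqueFactorizationMonoid R]
    (y : R) : y ≠ 0 → ∀ x : R, (∀ p e, Prime p → p ^ e ∣ y → p ^ e ∣ x) → y ∣ x := by
  refine UniqueFactorizationMonoid.induction_on_coprime y (fun h => absurd rfl h)
    (fun hx _ z _ => hx.dvd) (fun {p} i hp _ z hz => hz p i hp dvd_rfl) ?_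
  intro a b hab iha ihb h0 x hx
  have ha : a ≠ 0 := left_ne_zero_of_mul h0
  have hb : b ≠ 0 := right_ne_zero_of_mul h0
  exact hab.mul_dvd (iha ha x fun p e hp h => hx p e hp (h.mul_right _))
    (ihb hb x fun p e hp h => hx p e hp (h.mul_left _))

theorem t_div (hDVP : DVPStmt) : DIVStmt := by
  intro σ τ ι J _ _ _ _ D β P Δ N c s n F h i
  have h1 : ∀ γ, Δ ^ N ∣ coeff γ (∑ j, C (c j) * wL D (∑ a, s j a • P a) (n j) i) := by
    intro γ
    refine dvd_of_prime_pow (Δ ^ N) (pow_ne_zero _ h.ne) _ fun p e hp hpe => ?_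
    by_cases hpΔ : p ∣ Δ
    · exact hDVP σ τ ι J D β P Δ N c s n F h p e hp hpΔ hpe i γ
    · rcases Nat.eq_zero_or_pos e with h0 | h0
      · rw [h0, pow_zero]
        exact one_dvd _
      · exact absurd (hp.dvd_of_dvd_pow ((dvd_pow_self p h0.ne').trans hpe)) hpΔ
  obtain ⟨G, hG⟩ := (C_dvd_iff_dvd_coeff (Δ ^ N) _).2 h1
  exact ⟨G, hG⟩

end Pool.MFM
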