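/-
helper50. MFM: module KLS (kernel vectors and higher contractions).
-/
import Pool.Agent.H51.MFM.S

set_option autoImplicit false

open Module MvPolynomial

namespace Pool.MFM

section gen

variable {ι M : Type} {D : ι → M → M}

theorem itD_D (hD : ∀ i j m, D i (D j m) = D j (D i m)) (L : List ι) (e : ι) (m : M) :
    D e (itD D L m) = itD D L (D e m) := by
  induction L with
  | nil => rfl
  | cons i L ih =>
    change D e (D i (itD D L m)) = D i (itD D L (D e m))
    rw [hD, ih]

theorem itD_perm (hD : ∀ i j m, D i (D j m) = D j (D i m)) {L L' : List ι} (h : L.Perm L')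
    (m : M) : itD D L m = itD D L' m := by
  induction h with
  | nil => rfl
  | cons x _ ih =>
    change D x _ = D x _
    rw [ih]
  | swap x y l =>
    change D y (D x _) = D x (D y _)
    rw [hD]
  | trans _ _ h1 h2 => rw [h1, h2]

end gen

section kls

set_option linter.unusedSectionVars false

variable {O M ι : Type} [CommRing O] [AddCommGroup M] [Module O M] [Fintype ι]
  (S : DMod O M ι)

theorem DMod.D_zero (i : ι) : S.D i 0 = 0 := by
  have h := S.D_add i 0 0
  rw [add_zero] at h
  simpa using h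

theorem DMod.d_one (i : ι) : S.d i 1 = 0 := by
  have h := S.d_mul i 1 1
  simp only [mul_one, one_mul] at h
  simpa using h

theorem DMod.D_sum {α : Type} (i : ι) (s : Finset α) (f : α → M) :
    S.D i (∑ x ∈ s, f x) = ∑ x ∈ s, S.D i (f x) := by
  classical
  induction s using Finset.induction_on with
  | empty => simpa using S.D_zero i
  | insert a s ha ih => rw [Finset.sum_insert ha, Finset.sum_insert ha, S.D_add, ih]

theorem DMod.d_prod {α : Type} [DecidableEq α] (i : ι) (s : Finset α) (u : α → O) :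
    S.d i (∏ x ∈ s, u x) = ∑ x ∈ s, ∏ y ∈ s, Function.update u x (S.d i (u x)) y := by
  induction s using Finset.induction_on with
  | empty => simpa using S.d_one i
  | insert a s ha ih =>
    rw [Finset.prod_insert ha, Finset.sum_insert ha, S.d_mul, ih]
    congr 1
    · rw [Finset.prod_insert ha, Function.update_self]
      congr 1
      refine Finset.prod_congr rfl fun y hy => ?_
      rw [Function.update_of_ne]
      rintro rfl
      exact ha hy
    · rw [Finset.mul_sum]
      refine Finset.sum_congr rfl fun x hx => ?_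
      rw [Finset.prod_insert ha, Function.update_of_ne]
      rintro rfl
      exact ha hx

/-- the symmetric tensor -/
def Tl : List ι → M
  | [] => 0
  | e :: L => itD S.D L (S.g e)

theorem Tl_cons_cons (e f : ι) (L : List ι) : Tl S (e :: f :: L) = S.D f (Tl S (e :: L)) := rfl

theorem sym_one (L : List ι) (e f : ι) :
    S.D e (itD S.D L (S.g f)) = S.D f (itD S.D L (S.g e)) := by
  rw [itD_D S.D_comm, itD_D S.D_comm, S.sym]

theorem Tl_perm {L L' : List ι} (h : L.Perm L') : Tl S L = Tl S L' := by
  induction h with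
  | nil => rfl
  | cons x h _ => exact itD_perm S.D_comm h _
  | swap x y l => exact sym_one S l x y
  | trans _ _ h1 h2 => rw [h1, h2]

theorem Tl_cons (f : ι) {n : ℕ} (b : Fin (n + 1) → ι) :
    Tl S (f :: List.ofFn b) = S.D f (Tl S (List.ofFn b)) := by
  rw [List.ofFn_succ]
  exact sym_one S _ _ _

/-- the contraction of all the slots -/
noncomputable def ZZ {n : ℕ} (κ : Fin n → ι → O) : M :=
  ∑ b : Fin n → ι, (∏ r, κ r (b r)) • Tl S (List.ofFn b)

theorem ZZ_perm {n : ℕ} (κ : Fin n → ι → O) (σ : Equiv.Perm (Fin n)) :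
    ZZ S (κ ∘ σ) = ZZ S κ := by
  unfold ZZ
  rw [← Equiv.sum_comp (Equiv.arrowCongr σ.symm (Equiv.refl ι))
    (fun b : Fin n → ι => (∏ r, (κ ∘ σ) r (b r)) • Tl S (List.ofFn b))]
  refine Finset.sum_congr rfl fun b _ => ?_
  have e1 : (Equiv.arrowCongr σ.symm (Equiv.refl ι)) b = b ∘ σ := by
    funext x
    simp [Equiv.arrowCongr]
  rw [e1]
  congr 1
  · exact Equiv.prod_comp σ (fun r => κ r (b r))
  · exact Tl_perm S (Equiv.Perm.ofFn_comp_perm σ b)

/-- the vectors killed by `a • D g` -/
def Kl (a : O) (κ : ι → O) : Prop := ∀ c, a • ∑ b, κ b • S.D b (S.g c) = 0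

theorem Q_of_R {a : O} {n : ℕ}
    (hR : ∀ κ : Fin (n + 1) → ι → O, (∀ r, Kl S a (κ r)) → ∀ f,
      a • ∑ b : Fin (n + 1) → ι, (∏ r, κ r (b r)) • Tl S (f :: List.ofFn b) = 0)
    (κ : Fin (n + 2) → ι → O) (r₀ : Fin (n + 2)) (hκ : ∀ r, r ≠ r₀ → Kl S a (κ r)) :
    a • ZZ S κ = 0 := by
  classical
  -- move the free slot to `0`
  rw [← ZZ_perm S κ (Equiv.swap 0 r₀)]
  set κ' := κ ∘ (Equiv.swap 0 r₀) with hκ'
  have h1 : ∀ r : Fin (n + 1), Kl S a (κ' r.succ) := by
    intro r
    refine hκ _ ?_
    intro h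
    have h2 : (Equiv.swap 0 r₀) r.succ = (Equiv.swap 0 r₀) 0 := by
      rw [h, Equiv.swap_apply_left]
    exact Fin.succ_ne_zero r ((Equiv.swap 0 r₀).injective h2)
  have h2 := hR (fun r => κ' r.succ) h1
  unfold ZZ
  rw [← (Fin.consEquiv (fun _ : Fin (n + 2) => ι)).sum_comp, Fintype.sum_prod_type,
    Finset.smul_sum]
  refine Finset.sum_eq_zero fun f _ => ?_
  have h3 : a • ∑ b : Fin (n + 1) → ι, (∏ r, κ' r ((Fin.consEquiv (fun _ : Fin (n + 2) => ι))
      (f, b) r)) • Tl S (List.ofFn ((Fin.consEquiv (fun _ : Fin (n + 2) => ι)) (f, b))) =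
      κ' 0 f • (a • ∑ b : Fin (n + 1) → ι, (∏ r : Fin (n + 1), κ' r.succ (b r)) •
        Tl S (f :: List.ofFn b)) := by
    rw [smul_comm (κ' 0 f) a, Finset.smul_sum (r := κ' 0 f)]
    congr 1
    refine Finset.sum_congr rfl fun b _ => ?_
    have e1 : (Fin.consEquiv (fun _ : Fin (n + 2) => ι)) (f, b) = Fin.cons f b := rfl
    rw [e1, Fin.prod_univ_succ, List.ofFn_succ, smul_smul]
    simp only [Fin.cons_zero, Fin.cons_succ]
  rw [h3, h2 f, smul_zero]

theorem t_kls : KLSStmt := by
  classical
  intro O M ι _ _ _ _ S a ha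
  have main : ∀ (k : ℕ) (κ : Fin (k + 1) → ι → O), (∀ r, Kl S a (κ r)) → ∀ f,
      a • ∑ b : Fin (k + 1) → ι, (∏ r, κ r (b r)) • Tl S (f :: List.ofFn b) = 0 := by
    intro k
    induction k with
    | zero =>
      intro κ hκ f
      have h1 := hκ 0 f
      rw [← (Equiv.funUnique (Fin 1) ι).symm.sum_comp]
      refine Eq.trans ?_ h1
      congr 1
      refine Finset.sum_congr rfl fun b _ => ?_
      rw [Fin.prod_univ_one]
      rfl
    | succ n ih =>
      intro κ hκ f
      have hQ := Q_of_R S ih
      have h0 : a • ZZ S κ = 0 := hQ κ 0 fun r _ => hκ r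
      -- the derivative
      have h1 : a • S.D f (ZZ S κ) = 0 := by
        have h2 : S.D f (a • ZZ S κ) = 0 := by rw [h0, S.D_zero]
        rw [S.D_smul] at h2
        obtain ⟨b, hb⟩ := ha f
        rw [hb, mul_comm, mul_smul, h0, smul_zero, zero_add] at h2
        exact h2
      have h2 : S.D f (ZZ S κ) = ∑ r, ZZ S (Function.update κ r (fun x => S.d f (κ r x))) +
          ∑ b : Fin (n + 2) → ι, (∏ r, κ r (b r)) • Tl S (f :: List.ofFn b) := by
        unfold ZZ
        rw [S.D_sum]
        simp only [S.D_smul, Finset.sum_add_distrib]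
        congr 1
        · rw [Finset.sum_comm]
          refine Finset.sum_congr rfl fun b _ => ?_
          rw [S.d_prod f Finset.univ (fun r => κ r (b r)), Finset.sum_smul]
          refine Finset.sum_congr rfl fun r _ => ?_
          congr 1
          refine Finset.prod_congr rfl fun y _ => ?_
          by_cases hy : y = r
          · subst hy
            simp
          · simp [Function.update_of_ne hy]
        · refine Finset.sum_congr rfl fun b _ => ?_
          rw [Tl_cons]
      have h3 : a • ∑ r, ZZ S (Function.update κ r (fun x => S.d f (κ r x))) = 0 := by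
        rw [Finset.smul_sum]
        refine Finset.sum_eq_zero fun r _ => ?_
        refine hQ _ r fun s hs => ?_
        rw [Function.update_of_ne hs]
        exact hκ s
      rw [h2, smul_add, h3, zero_add] at h1
      exact h1
  intro k κ hκ c
  exact main k κ hκ c

end kls

end Pool.MFM
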