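/-
helper50. MFM: module LDG (derivations of discrete valuation rings).
-/
import Pool.Agent.H51.MFM.S

set_option autoImplicit false

open Module

namespace Pool.MFM

theorem t_ldg : LDGStmt := by
  intro O _ _ _ p hO hp d Δ hΔ hpΔ hdΔ a
  -- `p ∣ d p`
  have h1 : ∃ c, d p = p * c := by
    obtain ⟨m, u, hu, hm⟩ := hO Δ hΔ
    have hm0 : m ≠ 0 := by
      rintro rfl
      rw [pow_zero, one_mul] at hm
      rw [hm] at hpΔ
      exact hp (isUnit_of_dvd_unit hpΔ hu)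
    obtain ⟨n, rfl⟩ := Nat.exists_eq_succ_of_ne_zero hm0
    have hp0 : p ≠ 0 := by
      rintro rfl
      rw [Nat.succ_eq_add_one, pow_succ, mul_zero, zero_mul] at hm
      exact hΔ hm
    rw [hm, Derivation.leibniz, Derivation.leibniz_pow] at hdΔ
    simp only [smul_eq_mul, nsmul_eq_mul, Nat.succ_eq_add_one, Nat.add_sub_cancel] at hdΔ
    have h2 : p ^ n * (((n + 1 : ℕ) : O) * u * d p + p * d u) = 0 := by
      rw [← hdΔ, pow_succ]
      ring
    have h3 := (mul_eq_zero.1 h2).resolve_left (pow_ne_zero _ hp0)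
    obtain ⟨u', hu'⟩ := hu.exists_right_inv
    have h4 : algebraMap ℂ O ((((n + 1 : ℕ) : ℂ))⁻¹) * ((n + 1 : ℕ) : O) = 1 := by
      have h5 : ((n + 1 : ℕ) : O) = algebraMap ℂ O ((n + 1 : ℕ) : ℂ) := by
        rw [map_natCast]
      rw [h5, ← map_mul, inv_mul_cancel₀ (by exact_mod_cast Nat.succ_ne_zero n), map_one]
    refine ⟨-(algebraMap ℂ O ((((n + 1 : ℕ) : ℂ))⁻¹) * u' * d u), ?_⟩
    have h5 : ((n + 1 : ℕ) : O) * u * d p = -(p * d u) := by linear_combination h3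
    have h6 : d p = (algebraMap ℂ O ((((n + 1 : ℕ) : ℂ))⁻¹) * u') *
        (((n + 1 : ℕ) : O) * u * d p) := by
      have h7 : (algebraMap ℂ O ((((n + 1 : ℕ) : ℂ))⁻¹) * u') *
        (((n + 1 : ℕ) : O) * u * d p) = (algebraMap ℂ O ((((n + 1 : ℕ) : ℂ))⁻¹) *
          ((n + 1 : ℕ) : O)) * (u * u') * d p := by ring
      rw [h7, h4, hu', one_mul, one_mul]
    rw [h6, h5]
    ring
  obtain ⟨c, hc⟩ := h1
  by_cases ha : a = 0
  · exact ⟨0, by rw [ha, map_zero, mul_zero]⟩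
  obtain ⟨e, v, hv, he⟩ := hO a ha
  obtain ⟨v', hv'⟩ := hv.exists_right_inv
  refine ⟨(e : O) * c + v' * d v, ?_⟩
  rw [he, Derivation.leibniz, Derivation.leibniz_pow, hc]
  simp only [smul_eq_mul, nsmul_eq_mul]
  rcases Nat.eq_zero_or_pos e with h0 | h0
  · subst h0
    simp only [pow_zero, one_mul, Nat.cast_zero, zero_mul, mul_zero, add_zero, zero_add]
    rw [← mul_assoc, hv', one_mul]
  · obtain ⟨n, rfl⟩ := Nat.exists_eq_succ_of_ne_zero h0.ne'
    simp only [Nat.succ_eq_add_one, Nat.add_sub_cancel]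
    have h2 : p ^ (n + 1) * v * (((n + 1 : ℕ) : O) * c + v' * d v) =
        p ^ (n + 1) * v * (((n + 1 : ℕ) : O) * c) + p ^ (n + 1) * (v * v') * d v := by ring
    rw [h2, hv', mul_one, pow_succ]
    ring

end Pool.MFM
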