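/-
helper50. MFM: module LMA (the higher contractions of the derivatives of a polynomial).
-/
import Pool.Agent.H51.MFM.S

set_option autoImplicit false

open Module MvPolynomial

namespace Pool.MFM

theorem itD_perm' {ι M : Type} {D : ι → M → M} (hD : ∀ i j m, D i (D j m) = D j (D i m))
    {L L' : List ι} (h : L.Perm L') (m : M) : itD D L m = itD D L' m := by
  induction h with
  | nil => rfl
  | cons x _ ih =>
    change D x _ = D x _
    rw [ih]
  | swap x y l =>
    change D y (D x _) = D x (D y _)
    rw [hD]
  | trans _ _ h1 h2 => rw [h1, h2]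

theorem itD_append {ι M : Type} {D : ι → M → M} (L L' : List ι) (m : M) :
    itD D (L ++ L') m = itD D L (itD D L' m) := by
  induction L with
  | nil => rfl
  | cons x L ih =>
    change D x (itD D (L ++ L') m) = D x _
    rw [ih]

theorem lma_pd_comm {A σ : Type} [CommRing A] (i j : σ) (g : MvPolynomial σ A) :
    pderiv i (pderiv j g) = pderiv j (pderiv i g) := by
  classical
  have h : ⁅(pderiv i : Derivation A (MvPolynomial σ A) (MvPolynomial σ A)),
      (pderiv j : Derivation A (MvPolynomial σ A) (MvPolynomial σ A))⁆ = 0 := by
    apply MvPolynomial.derivation_ext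
    intro k
    rw [Derivation.commutator_apply, pderiv_X, pderiv_X]
    simp only [Pi.single_apply]
    split_ifs <;> simp
  have h2 := congrArg (fun D : Derivation A (MvPolynomial σ A) (MvPolynomial σ A) => D g) h
  simp only [Derivation.commutator_apply, Derivation.coe_zero, Pi.zero_apply] at h2
  exact sub_eq_zero.1 h2

/-- the coefficients of an iterated derivative -/
theorem coeff_itP {O ι : Type} [CommRing O] (L : List ι) : ∀ γ : ι →₀ ℕ,
    ∃ (n : O) (γ' : ι →₀ ℕ), ∀ G : MvPolynomial ι O, coeff γ (itP L G) = n * coeff γ' G := by
  classical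
  induction L with
  | nil => exact fun γ => ⟨1, γ, fun G => (one_mul _).symm⟩
  | cons i L ih =>
    intro γ
    obtain ⟨n, γ', h⟩ := ih (γ + Finsupp.single i 1)
    refine ⟨n * (γ i + 1), γ', fun G => ?_⟩
    have h1 : coeff γ (pderiv i (itP L G)) = coeff (γ + Finsupp.single i 1) (itP L G) *
        (γ i + 1) := by
      rw [coeff_pderiv]
    change coeff γ (pderiv i (itP L G)) = _
    rw [h1, h G]
    ring

theorem t_lma (hTEN : TENStmt) : LMAStmt := by
  classical
  intro O M ι _ _ _ _ _ _ S htot hd F hF k γ c
  refine hTEN O M ι S htot hd k (fun b => coeff γ (itP (List.ofFn b) F)) ?_ c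
  intro b r c
  -- the other indices
  set L : List ι := ((Finset.univ.erase r).val.map b).toList with hL
  have hperm : ∀ x, (List.ofFn (Function.update b r x)).Perm (L ++ [x]) := by
    intro x
    rw [← Multiset.coe_eq_coe, ← Fin.univ_val_map]
    have h1 : (Finset.univ : Finset (Fin (k + 1))).val = r ::ₘ (Finset.univ.erase r).val := by
      rw [← Finset.insert_val_of_notMem (Finset.notMem_erase r _),
        Finset.insert_erase (Finset.mem_univ r)]
    rw [h1, Multiset.map_cons, Function.update_self]
    have h2 : (Finset.univ.erase r).val.map (Function.update b r x) =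
        (Finset.univ.erase r).val.map b := by
      refine Multiset.map_congr rfl fun s hs => ?_
      rw [Function.update_of_ne]
      exact Finset.ne_of_mem_erase (s := Finset.univ) hs
    rw [h2, ← Multiset.coe_add, hL, Multiset.coe_toList, ← Multiset.singleton_add, add_comm]
    rfl
  obtain ⟨n, γ', h⟩ := coeff_itP (O := O) L γ
  have h1 : ∀ x, coeff γ (itP (List.ofFn (Function.update b r x)) F) =
      n * coeff γ' (pderiv x F) := by
    intro x
    have e1 : itP (List.ofFn (Function.update b r x)) F = itP L (pderiv x F) := by
      have h2 : itP (List.ofFn (Function.update b r x)) F = itP (L ++ [x]) F :=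
        itD_perm' (fun i j m => lma_pd_comm i j m) (hperm x) F
      rw [h2]
      exact itD_append L [x] F
    rw [e1, h]
  simp only [h1, mul_smul]
  rw [← Finset.smul_sum, hF, smul_zero]

end Pool.MFM
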