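/-
helper50. MFM: module SMI (submodules of a free module over a principal ideal domain).
-/
import Pool.Agent.H51.MFM.S

set_option autoImplicit false

open Module

namespace Pool.MFM

theorem t_smi : SMIStmt := by
  classical
  intro O ι _ _ _ _ N
  obtain ⟨n, snf⟩ := Submodule.smithNormalForm (Pi.basisFun O ι) N
  obtain ⟨bM, bN, f, a, hsnf⟩ := snf
  set a' : ι → O := fun i => if h : ∃ j, f j = i then a h.choose else 0 with ha'
  have haf : ∀ j, a' (f j) = a j := by
    intro j
    have hex : ∃ j', f j' = f j := ⟨j, rfl⟩
    rw [ha']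
    simp only [dif_pos hex]
    rw [f.injective hex.choose_spec]
  refine ⟨bM, a', fun x => ⟨fun hx i => ?_, fun hx => ?_⟩⟩
  · obtain ⟨c, h1⟩ : ∃ c : Fin n → O, x = ∑ j, (c j * a j) • bM (f j) := by
      refine ⟨fun j => bN.repr ⟨x, hx⟩ j, ?_⟩
      have h2 := bN.sum_repr ⟨x, hx⟩
      have h3 := congrArg (Submodule.subtype N) h2
      rw [map_sum] at h3
      simp only [map_smul, Submodule.subtype_apply] at h3
      refine h3.symm.trans ?_
      refine Finset.sum_congr rfl fun j _ => ?_
      rw [hsnf, smul_smul]
    have h2 : bM.repr x i = ∑ j, (c j * a j) * (if f j = i then 1 else 0) := by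
      rw [h1, map_sum, Finsupp.finsetSum_apply]
      refine Finset.sum_congr rfl fun j _ => ?_
      rw [map_smul, Finsupp.smul_apply, Basis.repr_self, Finsupp.single_apply, smul_eq_mul]
    rw [h2]
    refine Finset.dvd_sum fun j _ => ?_
    by_cases hj : f j = i
    · rw [if_pos hj, mul_one, ← hj, haf]
      exact Dvd.intro_left _ rfl
    · rw [if_neg hj, mul_zero]
      exact dvd_zero _
  · choose c hc using hx
    have h1 : x = ∑ j, c (f j) • (bN j : ι → O) := by
      have h2 : x = ∑ i, bM.repr x i • bM i := (bM.sum_repr x).symm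
      have h3 : ∑ i, bM.repr x i • bM i = ∑ i ∈ Finset.univ.image f, bM.repr x i • bM i := by
        symm
        refine Finset.sum_subset (Finset.subset_univ _) fun i _ hi => ?_
        have hne : ¬ ∃ j, f j = i := by
          rintro ⟨j, hj⟩
          exact hi (Finset.mem_image.2 ⟨j, Finset.mem_univ _, hj⟩)
        have h4 : a' i = 0 := by
          rw [ha']
          simp only [dif_neg hne]
        rw [hc i, h4, zero_mul, zero_smul]
      rw [h3, Finset.sum_image fun j _ j' _ h => f.injective h] at h2
      refine h2.trans ?_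
      refine Finset.sum_congr rfl fun j _ => ?_
      rw [hc (f j), haf, hsnf, mul_comm, mul_smul]
    rw [h1]
    exact N.sum_mem fun j _ => N.smul_mem _ (bN j).2

end Pool.MFM
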