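/-
helper50. MFM: module SUB (comparison of `wL` with `wq`).
-/
import Pool.Agent.H51.MFM.S

set_option autoImplicit false

open Module MvPolynomial

namespace Pool.MFM

open Pool.MFQ

section dc

variable {K K' τ : Type} [CommRing K] [CommRing K']

theorem coeff_dcM {d : K → K} (h0 : d 0 = 0) (F : MvPolynomial τ K) (γ : τ →₀ ℕ) :
    coeff γ (dcM d F) = d (coeff γ F) := by
  classical
  unfold dcM
  rw [coeff_sum]
  simp only [coeff_monomial]
  rw [Finset.sum_ite_eq' F.support γ]
  split_ifs with h
  · rfl
  · rw [notMem_support_iff.1 h, h0]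

theorem map_dcM {d : K → K} {d' : K' → K'} (h0 : d 0 = 0) (h0' : d' 0 = 0) (f : K →+* K')
    (hd : ∀ a, d' (f a) = f (d a)) (F : MvPolynomial τ K) :
    map f (dcM d F) = dcM d' (map f F) := by
  ext γ
  rw [coeff_map, coeff_dcM h0, coeff_dcM h0', coeff_map, hd]

theorem dcM_add {d : K → K} (h0 : d 0 = 0) (hadd : ∀ a b, d (a + b) = d a + d b)
    (F G : MvPolynomial τ K) : dcM d (F + G) = dcM d F + dcM d G := by
  ext γ
  rw [coeff_dcM h0, coeff_add, coeff_add, hadd, coeff_dcM h0, coeff_dcM h0]

/-- polynomials with constant coefficients -/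
def Kd (d : K → K) (F : MvPolynomial τ K) : Prop := ∀ γ, d (coeff γ F) = 0

theorem Kd_mul {d : K → K} (h0 : d 0 = 0) (hadd : ∀ a b, d (a + b) = d a + d b)
    (hmul : ∀ a b, d (a * b) = d a * b + a * d b) {F G : MvPolynomial τ K} (hF : Kd d F)
    (hG : Kd d G) : Kd d (F * G) := by
  classical
  intro γ
  rw [coeff_mul]
  have hs : ∀ (s : Finset ((τ →₀ ℕ) × (τ →₀ ℕ))),
      d (∑ x ∈ s, coeff x.1 F * coeff x.2 G) = 0 := by
    intro s
    induction s using Finset.induction_on with
    | empty => simpa using h0
    | insert a s ha ih =>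
      rw [Finset.sum_insert ha, hadd, ih, hmul, hF, hG, zero_mul, mul_zero, add_zero, add_zero]
  exact hs _

theorem Kd_pow {d : K → K} (h0 : d 0 = 0) (hadd : ∀ a b, d (a + b) = d a + d b)
    (hmul : ∀ a b, d (a * b) = d a * b + a * d b) {F : MvPolynomial τ K} (hF : Kd d F) (n : ℕ) :
    Kd d (F ^ n) := by
  classical
  induction n with
  | zero =>
    intro γ
    have h1 : d 1 = 0 := by
      have h := hmul 1 1
      simp only [mul_one, one_mul] at h
      simpa using h
    rw [pow_zero, coeff_one]
    split_ifs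
    · exact h1
    · exact h0
  | succ n ih =>
    rw [pow_succ]
    exact Kd_mul h0 hadd hmul ih hF

theorem dcM_C_mul {d : K → K} (h0 : d 0 = 0) (hmul : ∀ a b, d (a * b) = d a * b + a * d b)
    (a : K) {F : MvPolynomial τ K} (hF : Kd d F) : dcM d (C a * F) = C (d a) * F := by
  ext γ
  rw [coeff_dcM h0, coeff_C_mul, coeff_C_mul, hmul, hF, mul_zero, add_zero]

theorem coeff_dco {d : K → K} (h0 : d 0 = 0) (p : Polynomial K) (n : ℕ) :
    (dco d p).coeff n = d (p.coeff n) := by
  classical
  unfold dco
  rw [Polynomial.finsetSum_coeff]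
  simp only [Polynomial.coeff_monomial]
  rw [Finset.sum_ite_eq' p.support n]
  split_ifs with h
  · rfl
  · rw [Polynomial.notMem_support_iff.1 h, h0]

theorem dco_add {d : K → K} (h0 : d 0 = 0) (hadd : ∀ a b, d (a + b) = d a + d b)
    (p q : Polynomial K) : dco d (p + q) = dco d p + dco d q := by
  ext n
  rw [coeff_dco h0, Polynomial.coeff_add, Polynomial.coeff_add, hadd, coeff_dco h0, coeff_dco h0]

theorem dco_monomial {d : K → K} (h0 : d 0 = 0) (n : ℕ) (a : K) :
    dco d (Polynomial.monomial n a) = Polynomial.monomial n (d a) := by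
  ext m
  rw [coeff_dco h0, Polynomial.coeff_monomial, Polynomial.coeff_monomial]
  split_ifs
  · rfl
  · exact h0

theorem dcM_aeval {d : K → K} (h0 : d 0 = 0) (hadd : ∀ a b, d (a + b) = d a + d b)
    (hmul : ∀ a b, d (a * b) = d a * b + a * d b) {T : MvPolynomial τ K} (hT : Kd d T)
    (p : Polynomial K) : dcM d (Polynomial.aeval T p) = Polynomial.aeval T (dco d p) := by
  induction p using Polynomial.induction_on' with
  | add p q hp hq =>
    rw [map_add, dcM_add h0 hadd, hp, hq, dco_add h0 hadd, map_add]
  | monomial n a =>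
    rw [dco_monomial h0, Polynomial.aeval_monomial, Polynomial.aeval_monomial]
    exact dcM_C_mul h0 hmul a (Kd_pow h0 hadd hmul hT n)

end dc

theorem t_sub : SUBStmt := by
  classical
  intro σ τ K _ _ _ _ _ D D' P hD hP
  set f := algebraMap (MvPolynomial σ ℂ) K with hf
  set d : K → K := fun x => ∑ i, f (P.2 i) * D' i x with hd
  have hadd : ∀ a b, d (a + b) = d a + d b := by
    intro a b
    simp only [hd, map_add, mul_add, Finset.sum_add_distrib]
  have h0 : d 0 = 0 := by simp [hd]
  have hmul : ∀ a b, d (a * b) = d a * b + a * d b := by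
    intro a b
    simp only [hd, Derivation.leibniz, smul_eq_mul, mul_add, Finset.sum_add_distrib,
      Finset.sum_mul, Finset.mul_sum]
    rw [add_comm]
    congr 1
    · exact Finset.sum_congr rfl fun i _ => by ring
    · exact Finset.sum_congr rfl fun i _ => by ring
  have hdf : ∀ a, d (f a) = f (dvG D P a) := by
    intro a
    simp only [hd, dvG, map_sum, map_mul, hD]
  have h0' : dvG D P 0 = 0 := by simp [dvG]
  set T : MvPolynomial τ K := ∑ i, C (f (P.2 i)) * X i with hT
  have hKT : Kd d T := by
    intro γ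
    have h1 : coeff γ T = f (∑ i, if Finsupp.single i 1 = γ then P.2 i else 0) := by
      rw [hT, coeff_sum, map_sum]
      refine Finset.sum_congr rfl fun i _ => ?_
      rw [coeff_C_mul, coeff_X]
      split_ifs
      · rw [mul_one]
      · rw [mul_zero, map_zero]
    rw [h1, hdf]
    have h2 : dvG D P (∑ i, if Finsupp.single i 1 = γ then P.2 i else 0) =
        ∑ i, dvG D P (if Finsupp.single i 1 = γ then P.2 i else 0) := by
      simp only [dvG, map_sum, Finset.mul_sum]
      rw [Finset.sum_comm]
    rw [h2]
    have h3 : ∀ i : τ, dvG D P (if Finsupp.single i 1 = γ then P.2 i else 0) = 0 := by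
      intro i
      split_ifs
      · exact hP i
      · exact h0'
    rw [Finset.sum_congr rfl fun i _ => h3 i, Finset.sum_const_zero, map_zero]
  have hmapP : map f (toP P) = C (f P.1) + T := by
    rw [toP, map_add, map_C, map_sum, hT]
    congr 1
    refine Finset.sum_congr rfl fun i _ => ?_
    rw [map_mul, map_C, map_X]
  have hX : Polynomial.aeval T (Polynomial.X + Polynomial.C (f P.1)) = C (f P.1) + T := by
    rw [map_add, Polynomial.aeval_X, Polynomial.aeval_C, add_comm]
    rfl
  intro n
  induction n with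
  | zero =>
    intro i
    cases i with
    | zero =>
      simp only [wL, wq, map_one]
    | succ i =>
      simp only [wL, wq, map_zero]
  | succ n ih =>
    intro i
    cases i with
    | zero =>
      simp only [wL, wq]
      rw [map_mul, map_mul, hmapP, hX, ih 0]
    | succ i =>
      simp only [wL, wq]
      rw [map_add, map_add, map_mul, map_mul, hmapP, hX, ih (i + 1),
        map_dcM h0' h0 f hdf, ih i, dcM_aeval h0 hadd hmul hKT]

end Pool.MFM
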