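/-
helper50. MFM: module TEN (tensors all of whose slots are killed by `D g`).
-/
import Pool.Agent.H51.MFM.S

set_option autoImplicit false

open Module

namespace Pool.MFM

/-- a finite family which is totally ordered by divisibility has a member divisible by all -/
theorem exists_max_dvd {O α : Type} [CommRing O] (htot : ∀ a b : O, a ∣ b ∨ b ∣ a)
    (s : Finset α) (hs : s.Nonempty) (f : α → O) : ∃ r ∈ s, ∀ r' ∈ s, f r' ∣ f r := by
  classical
  induction hs using Finset.Nonempty.cons_induction with
  | singleton a => exact ⟨a, Finset.mem_singleton_self a, fun r' hr' => by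
      rw [Finset.mem_singleton.1 hr']⟩
  | cons a s ha hs ih =>
    obtain ⟨r, hr, hmax⟩ := ih
    rcases htot (f a) (f r) with h | h
    · refine ⟨r, Finset.mem_cons.2 (Or.inr hr), fun r' hr' => ?_⟩
      rcases Finset.mem_cons.1 hr' with h' | h'
      · rw [h']
        exact h
      · exact hmax r' h'
    · refine ⟨a, Finset.mem_cons.2 (Or.inl rfl), fun r' hr' => ?_⟩
      rcases Finset.mem_cons.1 hr' with h' | h'
      · rw [h']
      · exact (hmax r' h').trans h

theorem t_ten (hKLS : KLSStmt) (hSMI : SMIStmt) : TENStmt := by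
  classical
  intro O M ι _ _ _ _ _ _ S htot hd k t ht c
  -- the kernel
  let N : Submodule O (ι → O) :=
    { carrier := {κ | ∀ c, ∑ b, κ b • S.D b (S.g c) = 0}
      add_mem' := by
        intro x y hx hy c
        simp only [Pi.add_apply, add_smul, Finset.sum_add_distrib]
        rw [hx c, hy c, add_zero]
      zero_mem' := by
        intro c
        simp
      smul_mem' := by
        intro r x hx c
        simp only [Pi.smul_apply, smul_eq_mul, mul_smul]
        rw [← Finset.smul_sum, hx c, smul_zero] }
  have hN : ∀ κ : ι → O, κ ∈ N ↔ ∀ c, ∑ b, κ b • S.D b (S.g c) = 0 := fun κ => Iff.rfl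
  obtain ⟨e, a, hea⟩ := hSMI O ι N
  -- the matrix of the coordinates
  set F : ι → ι → O := fun b i => e.repr (Pi.single b 1) i with hF
  have hrepr : ∀ (κ : ι → O) i, e.repr κ i = ∑ b, κ b * F b i := by
    intro κ i
    have h1 : κ = ∑ b, κ b • (Pi.single b 1 : ι → O) := by
      funext x
      simp [Finset.sum_apply, Pi.single_apply]
    conv_lhs => rw [h1]
    rw [map_sum, Finsupp.finsetSum_apply]
    refine Finset.sum_congr rfl fun b _ => ?_
    rw [map_smul, Finsupp.smul_apply, smul_eq_mul]
  have hFE : ∀ b b' : ι, ∑ i, F b i * e i b' = if b = b' then 1 else 0 := by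
    intro b b'
    have h1 := congrFun (e.sum_repr (Pi.single b 1)) b'
    rw [Finset.sum_apply] at h1
    simp only [Pi.smul_apply, smul_eq_mul] at h1
    rw [h1, Pi.single_apply]
    by_cases h : b = b'
    · rw [if_pos h, if_pos h.symm]
    · rw [if_neg h, if_neg (Ne.symm h)]
  -- the coordinates of `t`
  set tt : (Fin (k + 1) → ι) → O := fun i => ∑ b, t b * ∏ r, F (b r) (i r) with htt
  have ht1 : ∀ b, t b = ∑ i, tt i * ∏ r, e (i r) (b r) := by
    intro b
    have h1 : ∀ b' : Fin (k + 1) → ι, ∑ i : Fin (k + 1) → ι,
        (∏ r, F (b' r) (i r)) * ∏ r, e (i r) (b r) = if b' = b then 1 else 0 := by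
      intro b'
      have h2 : ∀ i : Fin (k + 1) → ι, (∏ r, F (b' r) (i r)) * ∏ r, e (i r) (b r) =
          ∏ r, F (b' r) (i r) * e (i r) (b r) := fun i => (Finset.prod_mul_distrib).symm
      rw [Finset.sum_congr rfl fun i _ => h2 i,
        ← Fintype.prod_sum (fun r x => F (b' r) x * e x (b r))]
      rw [Finset.prod_congr rfl fun r _ => hFE (b' r) (b r)]
      by_cases h : b' = b
      · rw [if_pos h]
        refine Finset.prod_eq_one fun r _ => ?_
        rw [if_pos (congrFun h r)]
      · rw [if_neg h]
        obtain ⟨r, hr⟩ := Function.ne_iff.1 h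
        exact Finset.prod_eq_zero (Finset.mem_univ r) (if_neg hr)
    have h2 : ∑ i, tt i * ∏ r, e (i r) (b r) = ∑ b', t b' * (if b' = b then 1 else 0) := by
      simp only [htt, Finset.sum_mul]
      rw [Finset.sum_comm]
      refine Finset.sum_congr rfl fun b' _ => ?_
      rw [← h1 b', Finset.mul_sum]
      refine Finset.sum_congr rfl fun i _ => ?_
      rw [mul_assoc]
    rw [h2]
    simp
  -- divisibility
  have hdiv : ∀ (i : Fin (k + 1) → ι) r, a (i r) ∣ tt i := by
    intro i r
    have h1 : tt i = ∑ b' : Fin k → ι, (∏ s, F (b' s) (i (r.succAbove s))) *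
        ∑ x, t (Fin.insertNth r x b') * F x (i r) := by
      rw [htt]
      simp only
      rw [← (Fin.insertNthEquiv (fun _ : Fin (k + 1) => ι) r).sum_comp, Fintype.sum_prod_type,
        Finset.sum_comm]
      refine Finset.sum_congr rfl fun b' _ => ?_
      rw [Finset.mul_sum]
      refine Finset.sum_congr rfl fun x _ => ?_
      have e1 : (Fin.insertNthEquiv (fun _ : Fin (k + 1) => ι) r) (x, b') =
        Fin.insertNth r x b' := rfl
      rw [e1, Fin.prod_univ_succAbove _ r]
      simp only [Fin.insertNth_apply_same, Fin.insertNth_apply_succAbove]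
      ring
    rw [h1]
    refine Finset.dvd_sum fun b' _ => Dvd.dvd.mul_left ?_ _
    have h2 : (fun x => t (Fin.insertNth r x b')) ∈ N := by
      rw [hN]
      intro c
      by_cases hne : Nonempty ι
      · obtain ⟨x₀⟩ := hne
        have h3 := ht (Fin.insertNth r x₀ b') r c
        have e1 : ∀ x, Function.update (Fin.insertNth r x₀ b' : Fin (k + 1) → ι) r x =
            Fin.insertNth r x b' := by
          intro x
          funext s
          rcases Fin.eq_self_or_eq_succAbove r s with h | ⟨j, h⟩
          · subst h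
            simp
          · subst h
            rw [Function.update_of_ne (Fin.succAbove_ne r j)]
            simp
        simp only [e1] at h3
        exact h3
      · rw [not_nonempty_iff] at hne
        simp
    have h3 := (hea _).1 h2 (i r)
    rw [hrepr] at h3
    exact h3
  -- the end
  have h1 : ∑ b, t b • itD S.D (List.ofFn b) (S.g c) = ∑ i, tt i •
      ∑ b : Fin (k + 1) → ι, (∏ r, e (i r) (b r)) • itD S.D (List.ofFn b) (S.g c) := by
    simp only [Finset.smul_sum, smul_smul]
    rw [Finset.sum_comm]
    refine Finset.sum_congr rfl fun b _ => ?_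
    rw [← Finset.sum_smul, ← ht1]
  rw [h1]
  refine Finset.sum_eq_zero fun i _ => ?_
  obtain ⟨r, -, hr⟩ := exists_max_dvd htot (Finset.univ : Finset (Fin (k + 1)))
    Finset.univ_nonempty (fun s => a (i s))
  obtain ⟨t', ht'⟩ := hdiv i r
  have h2 : ∀ s c, a (i r) • ∑ b, e (i s) b • S.D b (S.g c) = 0 := by
    intro s c
    have h3 : a (i r) • (e (i s) : ι → O) ∈ N := by
      rw [hea]
      intro j
      rw [map_smul, Finsupp.smul_apply, Basis.repr_self, Finsupp.single_apply, smul_eq_mul]
      by_cases hj : i s = j
      · rw [if_pos hj, mul_one, ← hj]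
        exact hr s (Finset.mem_univ _)
      · rw [if_neg hj, mul_zero]
        exact dvd_zero _
    have h4 := (hN _).1 h3 c
    simp only [Pi.smul_apply, smul_eq_mul, mul_smul] at h4
    rw [Finset.smul_sum]
    exact h4
  have h3 := hKLS O M ι S (a (i r)) (hd _) k (fun s => e (i s)) h2 c
  rw [ht', mul_comm, mul_smul, h3, smul_zero]

end Pool.MFM
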